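import Pool.Agent.Helper28.ND.Spec

/-! Part NDR: the drift is admissible. -/

set_option autoImplicit false

namespace Pool.Agent.Helper32.ND.NDR

open MeasureTheory Set Filter Topology
open scoped ENNReal NNReal
open Pool.Agent.Helper28.ND

theorem per_pd {d : ℕ} {f : (Fin d → ℝ) → ℝ} (hf : Per f) (i : Fin d) : Per (pd i f) := by
  intro x k
  unfold pd
  have h1 : (fun y : Fin d → ℝ => f (y + fun i => (k i : ℝ))) = f := by
    funext y
    exact hf y k
  have h2 := fderiv_comp_add_right (𝕜 := ℝ) (f := f) (x := x) (fun i => (k i : ℝ))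
  rw [h1] at h2
  rw [h2]
  rfl

theorem meas_pd {d : ℕ} (f : (Fin d → ℝ) → ℝ) (i : Fin d) : Measurable (pd i f) :=
  measurable_fderiv_apply_const ℝ f (Pi.single i 1)

theorem i01 {d : ℕ} (hd : 2 ≤ d) : i1 hd ≠ i0 hd := by
  intro h
  have := congrArg Fin.val h
  simp [i0, i1] at this

theorem main (hBD : S_BD) (hLPB : S_LPB) (hCURL : S_CURL) (hIBPW : S_IBPW) : S_NDR := by
  intro a k ha ha4 hk d hd T s hT hs has
  obtain ⟨_, hP, _, _⟩ := hBD a k ha (by linarith) hk
  obtain ⟨hm, hper, _, _, _⟩ := hIBPW a ha ha4 _ hP d hd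
  have hL := hLPB a ha ha4 _ hP d hd s hs has
  have hC := hCURL a ha ha4 _ hP d hd
  refine ⟨?_, ?_, ?_, ?_⟩
  · apply measurable_pi_lambda
    intro i
    show Measurable fun z : ℝ × (Fin d → ℝ) => bN a k hd z.1 z.2 i
    unfold bN
    split_ifs
    · exact ((meas_pd _ _).comp measurable_snd).neg
    · exact (meas_pd _ _).comp measurable_snd
    · exact measurable_const
  · intro t x m
    funext i
    unfold bN
    rw [per_pd hper (i1 hd) x m, per_pd hper (i0 hd) x m]
  · have h1 : MemLp (bN a k hd 0) (ENNReal.ofReal s) (volume.restrict (Q d)) := by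
      have h2 : MemLp (fun x : Fin d → ℝ => ‖pd (i0 hd) (cp hd (Pf a k)) x‖ +
          ‖pd (i1 hd) (cp hd (Pf a k)) x‖) (ENNReal.ofReal s) (volume.restrict (Q d)) :=
        (hL (i0 hd)).norm.add (hL (i1 hd)).norm
      refine h2.mono ?_ (Eventually.of_forall fun x => ?_)
      · apply Measurable.aestronglyMeasurable
        apply measurable_pi_lambda
        intro i
        unfold bN
        split_ifs
        · exact (meas_pd _ _).neg
        · exact meas_pd _ _
        · exact measurable_const
      · have hn : 0 ≤ ‖pd (i0 hd) (cp hd (Pf a k)) x‖ + ‖pd (i1 hd) (cp hd (Pf a k)) x‖ := by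
          positivity
        rw [Real.norm_of_nonneg hn]
        rw [pi_norm_le_iff_of_nonneg hn]
        intro i
        unfold bN
        split_ifs
        · rw [norm_neg]
          exact le_add_of_nonneg_left (norm_nonneg _)
        · exact le_add_of_nonneg_right (norm_nonneg _)
        · rw [norm_zero]
          exact hn
    have h3 : ∀ t : ℝ, bN a k hd t = bN a k hd 0 := fun t => rfl
    simp_rw [h3]
    rw [lintegral_const]
    refine ENNReal.mul_lt_top (ENNReal.pow_lt_top h1.2) ?_
    rw [Measure.restrict_apply MeasurableSet.univ, univ_inter, Real.volume_Ioo]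
    exact ENNReal.ofReal_lt_top
  · intro f hf
    have h1 : ∀ t : ℝ, ∫ x in Q d, ∑ i, bN a k hd t x i * pd i (f t) x = 0 := by
      intro t
      have hft : ContDiff ℝ 2 (f t) := by
        have h2 : ContDiff ℝ 2 (U f) := by
          exact_mod_cast contDiff_infty.1 hf.1.smooth 2
        exact h2.comp (contDiff_prodMk_right t)
      have h2 := hC (f t) hft (hf.1.per t)
      rw [← h2]
      apply integral_congr_ae
      refine Eventually.of_forall fun x => ?_
      show ∑ i, bN a k hd t x i * pd i (f t) x = _
      have h3 : ∑ i, bN a k hd t x i * pd i (f t) x =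
          bN a k hd t x (i0 hd) * pd (i0 hd) (f t) x +
          bN a k hd t x (i1 hd) * pd (i1 hd) (f t) x := by
        rw [← Finset.sum_pair (f := fun i => bN a k hd t x i * pd i (f t) x) (i01 hd).symm]
        symm
        apply Finset.sum_subset (Finset.subset_univ _)
        intro i _ hi
        rw [Finset.mem_insert, Finset.mem_singleton, not_or] at hi
        have : bN a k hd t x i = 0 := by
          unfold bN
          rw [if_neg hi.1, if_neg hi.2]
        rw [this, zero_mul]
      rw [h3]
      unfold bN
      rw [if_pos rfl, if_neg (i01 hd), if_pos rfl]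
      ring
    simp_rw [h1]
    simp

end Pool.Agent.Helper32.ND.NDR
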