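import Pool.Agent.Helper28.ND.Spec

/-! Part WPF: facts on the Weierstrass function of the square lattice. -/

set_option autoImplicit false

namespace Pool.Agent.Helper32.ND.WPF

open MeasureTheory Set Filter Topology
open Pool.Agent.Helper28.ND

theorem one_mem : (1 : ℂ) ∈ Lat.lattice := Lat.ω₁_mem_lattice
theorem I_mem : Complex.I ∈ Lat.lattice := Lat.ω₂_mem_lattice

theorem zero_of_mem {z : ℂ} (h : z ∈ Lat.lattice) : wp z = 0 := Lat.weierstrassP_coe ⟨z, h⟩

theorem analytic {z : ℂ} (h : z ∉ Lat.lattice) : AnalyticAt ℂ wp z :=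
  Lat.analyticOnNhd_weierstrassP z h

theorem mero : Meromorphic wp := Lat.meromorphic_weierstrassP

theorem order_ne_top : ∀ z, meromorphicOrderAt wp z ≠ ⊤ := by
  rw [← Meromorphic.exists_meromorphicOrderAt_ne_top_iff_forall mero]
  refine ⟨0, ?_⟩
  have h : meromorphicOrderAt wp 0 = -2 := Lat.order_weierstrassP 0 (zero_mem _)
  rw [h]
  decide

theorem not_mem_lattice {z : ℂ} (h : z ∉ Bad) : z ∉ Lat.lattice := fun h2 => h (zero_of_mem h2)

theorem bad_closed : IsClosed Bad := by
  rw [← isOpen_compl_iff, isOpen_iff_mem_nhds]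
  intro z hz
  have h1 : ContinuousAt wp z := (analytic (not_mem_lattice hz)).continuousAt
  exact h1.eventually_ne hz

theorem bad_countable : Bad.Countable := by
  have h1 : ∀ z : ℂ, ({w : ℂ | w ∈ Bad → w = z} : Set ℂ) ∈ 𝓝 z := by
    intro z
    have h2 := (meromorphicOrderAt_ne_top_iff_eventually_ne_zero (mero z)).1 (order_ne_top z)
    rw [eventually_nhdsWithin_iff] at h2
    filter_upwards [h2] with w hw hwB
    by_contra hne
    exact hw hne hwB
  obtain ⟨s, hs, hcov⟩ := TopologicalSpace.countable_cover_nhds h1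
  refine hs.mono fun w hw => ?_
  have h3 : w ∈ ⋃ x ∈ s, ({w : ℂ | w ∈ Bad → w = x} : Set ℂ) := by
    rw [hcov]
    trivial
  rw [mem_iUnion₂] at h3
  obtain ⟨x, hx, hwx⟩ := h3
  have h4 : w = x := hwx hw
  rw [h4]
  exact hx

theorem meas : Measurable wp := by
  classical
  have h1 : wp = (Lat.lattice : Set ℂ).piecewise (fun _ => 0) wp := by
    funext z
    by_cases h : z ∈ (Lat.lattice : Set ℂ)
    · rw [Set.piecewise_eq_of_mem _ _ _ h]
      exact zero_of_mem h
    · rw [Set.piecewise_eq_of_notMem _ _ _ h]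
  have hc : IsClosed (Lat.lattice : Set ℂ) := Lat.isClosed_lattice
  rw [h1]
  refine ContinuousOn.measurable_piecewise continuousOn_const ?_ hc.measurableSet
  intro z hz
  exact (analytic hz).continuousAt.continuousWithinAt

theorem lim0 : Tendsto (fun z : ℂ => z ^ 2 * wp z) (𝓝[≠] 0) (𝓝 1) := by
  have h1 : ∀ z : ℂ, z ≠ 0 → z ^ 2 * wp z = z ^ 2 * Lat.weierstrassPExcept 0 z + 1 := by
    intro z hz
    have := Lat.ite_eq_one_sub_sq_mul_weierstrassP 0 (zero_mem _) z
    rw [if_neg hz] at this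
    show z ^ 2 * Lat.weierstrassP z = _
    simpa using this
  have h2 : ContinuousAt (Lat.weierstrassPExcept 0) 0 :=
    (Lat.analyticAt_weierstrassPExcept 0).continuousAt
  have h3 : Tendsto (fun z : ℂ => z ^ 2 * Lat.weierstrassPExcept 0 z + 1) (𝓝 0) (𝓝 1) := by
    have h4 : ContinuousAt (fun z : ℂ => z ^ 2 * Lat.weierstrassPExcept 0 z + 1) 0 := by
      fun_prop
    have h5 := h4.tendsto
    simpa using h5
  refine (h3.mono_left nhdsWithin_le_nhds).congr' ?_
  filter_upwards [self_mem_nhdsWithin] with z hz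
  exact (h1 z hz).symm

theorem main : S_WPF := by
  refine ⟨fun z => Lat.weierstrassP_add_coe z ⟨1, one_mem⟩,
    fun z => Lat.weierstrassP_add_coe z ⟨Complex.I, I_mem⟩, bad_closed, bad_countable,
    fun z hz => analytic (not_mem_lattice hz), meas, lim0⟩

end Pool.Agent.Helper32.ND.WPF
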