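import Pool.Agent.Helper32.ND.WPF

/-! Part WPI: integrability of the functions of the Weierstrass function. -/

set_option autoImplicit false

namespace Pool.Agent.Helper32.ND.WPI

open MeasureTheory Set Filter Topology
open Pool.Agent.Helper28.ND

/-- the power of the distance is integrable near a point -/
theorem loc (r : ℝ) (hr : r < 2) (x : ℂ) (A : ℝ) :
    ∫⁻ z in Metric.ball x 1, ENNReal.ofReal (A * ‖z - x‖ ^ (-r)) < ⊤ := by
  have h1 : IntegrableOn (fun z : ℂ => ‖z‖ ^ (-r)) (Metric.ball (0 : ℂ) 1) volume := by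
    have h2 := integrableOn_fun_norm_addHaar (E := ℂ) (μ := (volume : Measure ℂ))
      (f := fun y : ℝ => y ^ (-r)) (r := 1)
    rw [h2]
    have h3 : IntegrableOn (fun y : ℝ => y ^ (1 - r)) (Ioo 0 1) volume := by
      have := intervalIntegral.intervalIntegrable_rpow' (a := 0) (b := 1) (r := 1 - r) (by linarith)
      rw [intervalIntegrable_iff_integrableOn_Ioc_of_le zero_le_one] at this
      exact this.mono_set Ioo_subset_Ioc_self
    refine h3.congr_fun ?_ measurableSet_Ioo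
    intro y hy
    have hf : Module.finrank ℝ ℂ - 1 = 1 := by rw [Complex.finrank_real_complex]
    show y ^ (1 - r) = y ^ (Module.finrank ℝ ℂ - 1) • y ^ (-r)
    rw [hf, pow_one, smul_eq_mul, sub_eq_add_neg, Real.rpow_add hy.1, Real.rpow_one]
  have h4 : IntegrableOn (fun z : ℂ => A * ‖z - x‖ ^ (-r)) (Metric.ball x 1) volume := by
    apply Integrable.const_mul
    have h5 : IntegrableOn (fun z : ℂ => ‖z - x‖ ^ (-r)) ((fun z => z - x) ⁻¹' Metric.ball 0 1)
        volume := by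
      have := (measurePreserving_sub_right (volume : Measure ℂ) x).integrableOn_comp_preimage
        (MeasurableEquiv.subRight x).measurableEmbedding (s := Metric.ball (0 : ℂ) 1)
        (f := fun z : ℂ => ‖z‖ ^ (-r))
      exact this.2 h1
    have h6 : ((fun z => z - x) ⁻¹' Metric.ball (0 : ℂ) 1) = Metric.ball x 1 := by
      ext z
      simp [Complex.dist_eq]
    rwa [h6] at h5
  exact h4.lintegral_lt_top

/-- compactness -/
theorem cpt (F : ℂ → ENNReal)
    (h : ∀ x : ℂ, ∃ V ∈ 𝓝 x, ∫⁻ z in V, F z < ⊤) : ∫⁻ z in Sq, F z < ⊤ := by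
  have hK : IsCompact (Metric.closedBall (0 : ℂ) 2) := isCompact_closedBall 0 2
  have h1 : ∫⁻ z in Metric.closedBall (0 : ℂ) 2, F z < ⊤ := by
    refine hK.induction_on (p := fun s => ∫⁻ z in s, F z < ⊤) ?_ ?_ ?_ ?_
    · simp
    · intro s t hst ht
      exact (lintegral_mono_set hst).trans_lt ht
    · intro s t hs ht
      exact (lintegral_union_le F s t).trans_lt (ENNReal.add_lt_top.2 ⟨hs, ht⟩)
    · intro x _
      obtain ⟨V, hV, hlt⟩ := h x
      exact ⟨V, mem_nhdsWithin_of_mem_nhds hV, hlt⟩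
  refine (lintegral_mono_set ?_).trans_lt h1
  intro z hz
  rw [mem_closedBall_zero_iff]
  have h2 : ‖z‖ ≤ |z.re| + |z.im| := Complex.norm_le_abs_re_add_abs_im z
  obtain ⟨⟨a1, a2⟩, ⟨b1, b2⟩⟩ := hz
  rw [abs_of_pos a1, abs_of_pos b1] at h2
  linarith

/-- the local form -/
theorem form (x : ℂ) : ∃ (c C E ρ : ℝ) (n : ℤ), -2 ≤ n ∧ 0 < c ∧ 0 < C ∧ 0 < E ∧ 0 < ρ ∧ ρ < 1 ∧
    ∀ z ∈ Metric.ball x ρ, z ≠ x → c * ‖z - x‖ ^ n ≤ ‖wp z‖ ∧ ‖wp z‖ ≤ C * ‖z - x‖ ^ n ∧
      ‖deriv wp z‖ ≤ E * ‖z - x‖ ^ (n - 1) := by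
  have hord := WPF.order_ne_top x
  obtain ⟨n, hn⟩ := WithTop.ne_top_iff_exists.mp hord
  have hn2 : -2 ≤ n := by
    by_cases hx : x ∈ Lat.lattice
    · have h1 : meromorphicOrderAt wp x = -2 := Lat.order_weierstrassP x hx
      rw [h1] at hn
      have : (n : WithTop ℤ) = ((-2 : ℤ) : WithTop ℤ) := hn
      rw [WithTop.coe_inj] at this
      omega
    · have h1 := (WPF.analytic hx).meromorphicOrderAt_nonneg
      rw [← hn] at h1
      have : (0 : ℤ) ≤ n := by exact_mod_cast h1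
      omega
  obtain ⟨g, hg, hgx, hgz⟩ := (meromorphicOrderAt_eq_int_iff (WPF.mero x)).1 hn.symm
  have e1 : ∀ᶠ z in 𝓝[≠] x, ‖g z‖ < 2 * ‖g x‖ := by
    refine Filter.Eventually.filter_mono nhdsWithin_le_nhds ?_
    have := hg.continuousAt.norm.eventually_lt (g := fun _ => 2 * ‖g x‖) continuousAt_const
      (by have := norm_pos_iff.2 hgx; linarith)
    exact this
  have e2 : ∀ᶠ z in 𝓝[≠] x, ‖g x‖ / 2 < ‖g z‖ := by
    refine Filter.Eventually.filter_mono nhdsWithin_le_nhds ?_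
    have := (continuousAt_const (y := ‖g x‖ / 2)).eventually_lt hg.continuousAt.norm
      (by have := norm_pos_iff.2 hgx; linarith)
    exact this
  have e3 : ∀ᶠ z in 𝓝[≠] x, ‖deriv g z‖ < ‖deriv g x‖ + 1 := by
    refine Filter.Eventually.filter_mono nhdsWithin_le_nhds ?_
    have := hg.deriv.continuousAt.norm.eventually_lt (g := fun _ => ‖deriv g x‖ + 1)
      continuousAt_const (by linarith)
    exact this
  have e4 : ∀ᶠ z in 𝓝[≠] x, DifferentiableAt ℂ g z := by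
    refine Filter.Eventually.filter_mono nhdsWithin_le_nhds ?_
    filter_upwards [hg.eventually_analyticAt] with z hz
    exact hz.differentiableAt
  have e5 : ∀ᶠ z in 𝓝[≠] x, ∀ᶠ w in 𝓝 z, wp w = (w - x) ^ n • g w := by
    have h1 := eventually_eventually_nhdsWithin.2 hgz
    filter_upwards [h1, self_mem_nhdsWithin] with z hz hzx
    have h2 : 𝓝[≠] x ≤ 𝓝 x := nhdsWithin_le_nhds
    have h3 : (𝓝[{x}ᶜ] z) = 𝓝 z := isOpen_compl_singleton.nhdsWithin_eq hzx
    rw [h3] at hz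
    exact hz
  have hall := ((e1.and e2).and (e3.and e4)).and e5
  rw [eventually_nhdsWithin_iff, Metric.eventually_nhds_iff_ball] at hall
  obtain ⟨ρ, hρ, hb⟩ := hall
  have hgp := norm_pos_iff.2 hgx
  refine ⟨‖g x‖ / 2, 2 * ‖g x‖, |(n : ℝ)| * (2 * ‖g x‖) + (‖deriv g x‖ + 1), min ρ (1 / 2), n, hn2,
    by positivity, by positivity, by positivity, lt_min hρ (by norm_num),
    (min_le_right _ _).trans_lt (by norm_num), ?_⟩
  intro z hz hzx
  have hz1 : z ∈ Metric.ball x ρ := Metric.ball_subset_ball (min_le_left _ _) hz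
  have hz2 : ‖z - x‖ < 1 := by
    have := Metric.mem_ball.1 hz
    rw [Complex.dist_eq] at this
    exact this.trans_le ((min_le_right _ _).trans (by norm_num))
  have hpos : 0 < ‖z - x‖ := norm_pos_iff.2 (sub_ne_zero.2 hzx)
  obtain ⟨⟨⟨k1, k2⟩, k3, k4⟩, k5⟩ := hb z hz1 hzx
  have hval : ‖wp z‖ = ‖z - x‖ ^ n * ‖g z‖ := by
    rw [k5.self_of_nhds, norm_smul, norm_zpow]
  have hzn : 0 < ‖z - x‖ ^ n := zpow_pos hpos n
  refine ⟨?_, ?_, ?_⟩
  · rw [hval, mul_comm]
    exact mul_le_mul_of_nonneg_left k2.le hzn.le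
  · rw [hval, mul_comm]
    exact mul_le_mul_of_nonneg_right k1.le hzn.le
  · have hd : deriv wp z = (n * (z - x) ^ (n - 1)) * g z + (z - x) ^ n * deriv g z := by
      have h1 : wp =ᶠ[𝓝 z] fun w => (w - x) ^ n * g w := k5
      rw [h1.deriv_eq]
      have h2 : HasDerivAt (fun w : ℂ => (w - x) ^ n) (n * (z - x) ^ (n - 1)) z := by
        have h3 := (hasDerivAt_zpow n (z - x) (Or.inl (sub_ne_zero.2 hzx))).comp z
          ((hasDerivAt_id z).sub_const x)
        rw [mul_one] at h3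
        exact h3
      exact (h2.mul k4.hasDerivAt).deriv
    rw [hd]
    refine (norm_add_le _ _).trans ?_
    rw [norm_mul, norm_mul, norm_mul, norm_zpow, norm_zpow]
    have hn1 : ‖(n : ℂ)‖ = |(n : ℝ)| := by
      rw [Complex.norm_intCast]
    rw [hn1]
    have hz' : ‖z - x‖ ^ n ≤ ‖z - x‖ ^ (n - 1) := by
      have : ‖z - x‖ ^ n = ‖z - x‖ ^ (n - 1) * ‖z - x‖ := by
        rw [← zpow_add_one₀ hpos.ne']
        congr 1
        ring
      rw [this]
      exact mul_le_of_le_one_right (zpow_pos hpos _).le hz2.le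
    have hp1 : 0 < ‖z - x‖ ^ (n - 1) := zpow_pos hpos _
    have f1 : |(n : ℝ)| * ‖z - x‖ ^ (n - 1) * ‖g z‖ ≤
        |(n : ℝ)| * ‖z - x‖ ^ (n - 1) * (2 * ‖g x‖) :=
      mul_le_mul_of_nonneg_left k1.le (by positivity)
    have f2 : ‖z - x‖ ^ n * ‖deriv g z‖ ≤ ‖z - x‖ ^ (n - 1) * (‖deriv g x‖ + 1) :=
      mul_le_mul hz' k3.le (norm_nonneg _) hp1.le
    calc _ ≤ |(n : ℝ)| * ‖z - x‖ ^ (n - 1) * (2 * ‖g x‖) +
        ‖z - x‖ ^ (n - 1) * (‖deriv g x‖ + 1) := add_le_add f1 f2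
      _ = _ := by ring

theorem powbd {a C r : ℝ} {n : ℤ} (ha : 0 < a) (hC : 0 < C) (hn : -2 ≤ n) (h0 : 0 < r)
    (h1 : r < 1) {w : ℝ} (hw : 0 ≤ w) (hwC : w ≤ C * r ^ n) :
    w ^ (2 * a) ≤ C ^ (2 * a) * r ^ (-(4 * a)) := by
  have g1 : w ^ (2 * a) ≤ (C * r ^ n) ^ (2 * a) := Real.rpow_le_rpow hw hwC (by positivity)
  refine g1.trans ?_
  rw [Real.mul_rpow hC.le (zpow_pos h0 n).le]
  refine mul_le_mul_of_nonneg_left ?_ (by positivity)
  rw [← Real.rpow_intCast, ← Real.rpow_mul h0.le]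
  apply Real.rpow_le_rpow_of_exponent_ge h0 h1.le
  have : (-2 : ℝ) ≤ n := by exact_mod_cast hn
  nlinarith

theorem ne_ae (x : ℂ) (V : Set ℂ) : ∀ᵐ z ∂(volume.restrict V), z ≠ x :=
  ae_restrict_of_ae (compl_mem_ae_iff.2 (measure_singleton x))

theorem main : S_WPI := by
  intro a s ha hs has
  have ha4 : 4 * a < 1 := by nlinarith
  constructor
  · apply cpt
    intro x
    obtain ⟨c, C, E, ρ, n, hn, hc, hC, hE, hρ, hρ1, hb⟩ := form x
    refine ⟨Metric.ball x ρ, Metric.ball_mem_nhds x hρ, ?_⟩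
    set A : ℝ := (E / c * (1 + C ^ (2 * a))) ^ s with hA
    refine lt_of_le_of_lt ?_ (loc ((1 + 4 * a) * s) has x A)
    refine le_trans ?_ (lintegral_mono_set (Metric.ball_subset_ball hρ1.le))
    apply lintegral_mono_ae
    filter_upwards [ae_restrict_mem Metric.isOpen_ball.measurableSet, ne_ae x _] with z hz hzx
    obtain ⟨h1, h2, h3⟩ := hb z hz hzx
    have hr0 : 0 < ‖z - x‖ := norm_pos_iff.2 (sub_ne_zero.2 hzx)
    have hr1 : ‖z - x‖ < 1 := by
      have := Metric.mem_ball.1 hz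
      rw [Complex.dist_eq] at this
      linarith
    apply ENNReal.ofReal_le_ofReal
    set r := ‖z - x‖ with hr
    have hrn : 0 < r ^ n := zpow_pos hr0 n
    have hwp : 0 < ‖wp z‖ := lt_of_lt_of_le (by positivity) h1
    have q1 : ‖deriv wp z‖ * ‖wp z‖⁻¹ ≤ E / c * r ^ (-1 : ℝ) := by
      rw [← div_eq_mul_inv, div_le_iff₀ hwp]
      refine h3.trans ?_
      have e1 : E / c * r ^ (-1 : ℝ) * (c * r ^ n) = E * r ^ (n - 1) := by
        rw [Real.rpow_neg_one, zpow_sub_one₀ hr0.ne']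
        field_simp
      rw [← e1]
      exact mul_le_mul_of_nonneg_left h1 (by positivity)
    have q2 := powbd ha hC hn hr0 hr1 hwp.le h2
    have q3 : ‖deriv wp z‖ * (‖wp z‖⁻¹ + ‖wp z‖ ^ (2 * a - 1)) =
        ‖deriv wp z‖ * ‖wp z‖⁻¹ * (1 + ‖wp z‖ ^ (2 * a)) := by
      rw [Real.rpow_sub_one hwp.ne', div_eq_mul_inv]
      ring
    have q4 : 1 ≤ r ^ (-(4 * a)) := by
      apply Real.one_le_rpow_of_pos_of_le_one_of_nonpos hr0 hr1.le
      linarith
    have q5 : 1 + ‖wp z‖ ^ (2 * a) ≤ (1 + C ^ (2 * a)) * r ^ (-(4 * a)) := by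
      rw [add_mul, one_mul]
      exact add_le_add q4 q2
    have q6 : ‖deriv wp z‖ * (‖wp z‖⁻¹ + ‖wp z‖ ^ (2 * a - 1)) ≤
        (E / c * (1 + C ^ (2 * a))) * r ^ (-(1 + 4 * a)) := by
      rw [q3]
      calc _ ≤ (E / c * r ^ (-1 : ℝ)) * ((1 + C ^ (2 * a)) * r ^ (-(4 * a))) :=
            mul_le_mul q1 q5 (by positivity) (by positivity)
        _ = (E / c * (1 + C ^ (2 * a))) * (r ^ (-1 : ℝ) * r ^ (-(4 * a))) := by ring
        _ = _ := by
            rw [← Real.rpow_add hr0]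
            congr 2
            ring
    have q7 := Real.rpow_le_rpow (by positivity) q6 (by linarith : (0 : ℝ) ≤ s)
    refine q7.trans (le_of_eq ?_)
    rw [Real.mul_rpow (by positivity) (by positivity), ← Real.rpow_mul hr0.le, hA]
    congr 2
    ring
  · apply cpt
    intro x
    obtain ⟨c, C, E, ρ, n, hn, hc, hC, hE, hρ, hρ1, hb⟩ := form x
    refine ⟨Metric.ball x ρ, Metric.ball_mem_nhds x hρ, ?_⟩
    refine lt_of_le_of_lt ?_ (loc (4 * a) (by linarith) x (1 + C ^ (2 * a)))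
    refine le_trans ?_ (lintegral_mono_set (Metric.ball_subset_ball hρ1.le))
    apply lintegral_mono_ae
    filter_upwards [ae_restrict_mem Metric.isOpen_ball.measurableSet, ne_ae x _] with z hz hzx
    obtain ⟨h1, h2, h3⟩ := hb z hz hzx
    have hr0 : 0 < ‖z - x‖ := norm_pos_iff.2 (sub_ne_zero.2 hzx)
    have hr1 : ‖z - x‖ < 1 := by
      have := Metric.mem_ball.1 hz
      rw [Complex.dist_eq] at this
      linarith
    apply ENNReal.ofReal_le_ofReal
    have q2 := powbd ha hC hn hr0 hr1 (norm_nonneg _) h2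
    have q4 : 1 ≤ ‖z - x‖ ^ (-(4 * a)) := by
      apply Real.one_le_rpow_of_pos_of_le_one_of_nonpos hr0 hr1.le
      linarith
    rw [add_mul, one_mul]
    exact add_le_add q4 q2

end Pool.Agent.Helper32.ND.WPI
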